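import Pool.Agent.MP_7c5cdb.All.RFinal
import Pool.Agent.MP_7c5cdb.All.RowF23
import Pool.Agent.MP_7c5cdb.Count

/-!
# The indicator of every Euclidean ball is the window of a Gabor Riesz basis, in every dimension

The same construction proves the frozen statement `S05143` (the dimensions `d` with `d % 4 ≠ 1`).
Periods `4 ℤ^d` (radius `1`), fine fibre lattice `(4/M) ℤ^d`; mains at the roots of a saturated
packing whose points form a tree, groups of near-coincident positions on rays from the roots, links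
at the midpoints of the tree edges, special modulations with hierarchically chosen perturbations.
In every fibre the determinant over the group algebra of the periods has a dominant coefficient.
-/

set_option autoImplicit false
open MeasureTheory

namespace Pool.Agent.Results.MP_7c5cdb_an.AllBalls

/-- In every dimension `d`, for every ball (centre `z`, radius `r > 0`, open Euclidean ball) there
is a countable set `S` of translation-modulation pairs such that the Gabor system of the indicator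
function of the ball with shift set `S` is a Riesz basis of `L²(ℝ^d)`: it has two-sided Riesz
bounds and it is complete. -/
theorem result (d : ℕ) (z : Fin d → ℝ) (r : ℝ) (hr : 0 < r) :
    ∃ S : Set ((Fin d → ℝ) × (Fin d → ℝ)), S.Countable ∧
    ∃ A B : ℝ, 0 < A ∧ 0 < B ∧
    (∀ F : Finset ((Fin d → ℝ) × (Fin d → ℝ)), (↑F : Set ((Fin d → ℝ) × (Fin d → ℝ))) ⊆ S →
      ∀ c : (Fin d → ℝ) × (Fin d → ℝ) → ℂ,
        A * ∑ p ∈ F, ‖c p‖ ^ 2 ≤
          ∫ x : Fin d → ℝ, ‖∑ p ∈ F, c p *
            (Complex.exp (2 * (Real.pi : ℂ) * Complex.I * ((∑ i, p.2 i * x i : ℝ) : ℂ)) *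
              Set.indicator {y : Fin d → ℝ | ∑ i, (y i - z i) ^ 2 < r ^ 2}
                (fun _ => (1 : ℂ)) (x - p.1))‖ ^ 2 ∧
        ∫ x : Fin d → ℝ, ‖∑ p ∈ F, c p *
            (Complex.exp (2 * (Real.pi : ℂ) * Complex.I * ((∑ i, p.2 i * x i : ℝ) : ℂ)) *
              Set.indicator {y : Fin d → ℝ | ∑ i, (y i - z i) ^ 2 < r ^ 2}
                (fun _ => (1 : ℂ)) (x - p.1))‖ ^ 2
          ≤ B * ∑ p ∈ F, ‖c p‖ ^ 2) ∧
    (∀ f : (Fin d → ℝ) → ℂ, MemLp f 2 volume → ∀ ε : ℝ, 0 < ε →
      ∃ F : Finset ((Fin d → ℝ) × (Fin d → ℝ)),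
        (↑F : Set ((Fin d → ℝ) × (Fin d → ℝ))) ⊆ S ∧
        ∃ c : (Fin d → ℝ) × (Fin d → ℝ) → ℂ,
          ∫ x : Fin d → ℝ, ‖f x - ∑ p ∈ F, c p *
            (Complex.exp (2 * (Real.pi : ℂ) * Complex.I * ((∑ i, p.2 i * x i : ℝ) : ℂ)) *
              Set.indicator {y : Fin d → ℝ | ∑ i, (y i - z i) ^ 2 < r ^ 2}
                (fun _ => (1 : ℂ)) (x - p.1))‖ ^ 2 < ε) := by
  have h : ∃ S, MP7c5cdb.IsGRB {y : Fin d → ℝ | ∑ i, (y i - z i) ^ 2 < r ^ 2} S := by
    rcases Nat.eq_zero_or_pos d with rfl | hd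
    · exact MP7c5cdb.All.exists_ball_zero z r hr
    · exact MP7c5cdb.All.exists_ball_of_radius (MP7c5cdb.All.exists_ball_radius hd) z r hr
  obtain ⟨S, hS⟩ := h
  refine ⟨S, hS.countable ?_ ?_, hS⟩
  · exact (isOpen_lt (by fun_prop) continuous_const).measurableSet
  · refine ⟨∑ i, |z i| + r, fun y hy i => ?_⟩
    have hy' : ∑ i, (y i - z i) ^ 2 < r ^ 2 := hy
    have h1 : (y i - z i) ^ 2 ≤ ∑ i, (y i - z i) ^ 2 :=
      Finset.single_le_sum (f := fun i => (y i - z i) ^ 2) (fun _ _ => sq_nonneg _)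
        (Finset.mem_univ i)
    have h2 : |y i - z i| ≤ r := abs_le_of_sq_le_sq (by linarith) hr.le
    have h3 : |z i| ≤ ∑ i, |z i| :=
      Finset.single_le_sum (f := fun i => |z i|) (fun _ _ => abs_nonneg _) (Finset.mem_univ i)
    have h4 : |y i| ≤ |y i - z i| + |z i| := by
      have := abs_add_le (y i - z i) (z i)
      rwa [sub_add_cancel] at this
    linarith

end Pool.Agent.Results.MP_7c5cdb_an.AllBalls
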